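import Pool.Agent.H69.LB.Gsp
import Pool.Agent.H69.LB.Div
import Pool.Agent.H17.CharBound

/-!
# SZ / PV: the Polya-Vinogradov inequality for primitive characters

`χ(n) τ(χ⁻¹) = ∑_x χ⁻¹(x) e(n x / q)`, the sum over `n ≤ N` of `e(nx/q)` is at most `2/|e(x/q) - 1| ≤ (q/2)(1/x + 1/(q-x))`,
`|τ| = √q`. So `|∑_{n ≤ N} χ(n)| ≤ √q (1 + log q)`. With `(n, m) = 1`: at most `τ(m)` times this.
-/

namespace SZ17

open Finset H69LB

/-- geometric sum -/
theorem pv_geom {z : ℂ} (hz : ‖z‖ = 1) (h1 : z ≠ 1) (N : ℕ) : ‖∑ n ∈ Icc 1 N, z ^ n‖ ≤ 2 / ‖z - 1‖ := by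
  have h0 : 0 < ‖z - 1‖ := norm_pos_iff.2 (sub_ne_zero.2 h1)
  rw [le_div_iff₀ h0, ← norm_mul]
  have h2 : (∑ n ∈ Icc 1 N, z ^ n) * (z - 1) = z * (z ^ N - 1) := by
    have h3 : ∑ n ∈ Icc 1 N, z ^ n = z * ∑ n ∈ range N, z ^ n := by
      rw [mul_sum]
      refine Finset.sum_bij (fun n _ => n - 1) ?_ ?_ ?_ ?_
      · intro a ha
        rw [mem_Icc] at ha
        rw [mem_range]
        omega
      · intro a ha b hb hab
        rw [mem_Icc] at ha hb
        omega
      · intro b hb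
        rw [mem_range] at hb
        exact ⟨b + 1, by rw [mem_Icc]; omega, by omega⟩
      · intro a ha
        rw [mem_Icc] at ha
        have : a = (a - 1) + 1 := by omega
        conv_lhs => rw [this, pow_succ]
        ring
    rw [h3, mul_assoc, geom_sum_mul]
  rw [h2, norm_mul, hz, one_mul]
  calc ‖z ^ N - 1‖ ≤ ‖z ^ N‖ + ‖(1 : ℂ)‖ := norm_sub_le _ _
    _ = 2 := by rw [norm_pow, hz, one_pow, norm_one]; norm_num

/-- `|e(x/q) - 1| ≥ 4 min(x, q-x)/q` in the form used -/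
theorem pv_ee {q x : ℕ} (hx : 1 ≤ x) (hxq : x < q) :
    2 / ‖ee ((x : ℝ) / q) - 1‖ ≤ (q : ℝ) / 2 * ((x : ℝ)⁻¹ + ((q - x : ℕ) : ℝ)⁻¹) := by
  have hq0 : (0 : ℝ) < q := by exact_mod_cast (by omega : 0 < q)
  have hx0 : (0 : ℝ) < x := by exact_mod_cast hx
  have hqx0 : (0 : ℝ) < ((q - x : ℕ) : ℝ) := by exact_mod_cast (by omega : 0 < q - x)
  have hqx : ((q - x : ℕ) : ℝ) = q - x := by rw [Nat.cast_sub hxq.le]
  -- norm of e(t) - 1
  have hn : ‖ee ((x : ℝ) / q) - 1‖ = 2 * Real.sin (Real.pi * ((x : ℝ) / q)) := by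
    have h1 : ee ((x : ℝ) / q) = Complex.exp (Complex.I * ((2 * Real.pi * ((x : ℝ) / q) : ℝ) : ℂ)) := by
      unfold ee
      congr 1
      push_cast
      ring
    rw [h1, Complex.norm_exp_I_mul_ofReal_sub_one]
    have h2 : 2 * Real.pi * ((x : ℝ) / q) / 2 = Real.pi * ((x : ℝ) / q) := by ring
    rw [h2, Real.norm_eq_abs, abs_of_nonneg]
    have h3 : 0 ≤ Real.sin (Real.pi * ((x : ℝ) / q)) := by
      apply Real.sin_nonneg_of_nonneg_of_le_pi
      · positivity
      · have : (x : ℝ) / q ≤ 1 := by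
          rw [div_le_one hq0]
          exact_mod_cast hxq.le
        nlinarith [Real.pi_pos]
    positivity
  rw [hn]
  -- lower bound of the sine
  have key : ∀ t : ℝ, 0 < t → t ≤ 1 / 2 → 2 * t ≤ Real.sin (Real.pi * t) := by
    intro t ht ht2
    have h := Real.mul_le_sin (x := Real.pi * t) (by positivity) (by nlinarith [Real.pi_pos])
    have e : 2 / Real.pi * (Real.pi * t) = 2 * t := by
      field_simp
    rwa [e] at h
  rcases le_total ((x : ℝ) / q) (1 / 2) with h | h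
  · have h1 := key _ (by positivity) h
    have h2 : (q : ℝ) / 2 * (x : ℝ)⁻¹ = 2 / (2 * (2 * ((x : ℝ) / q))) := by
      field_simp
    have h3 : 2 / (2 * Real.sin (Real.pi * ((x : ℝ) / q))) ≤ 2 / (2 * (2 * ((x : ℝ) / q))) := by
      apply div_le_div_of_nonneg_left (by norm_num) (by positivity)
      linarith
    have h4 : 0 ≤ (q : ℝ) / 2 * ((q - x : ℕ) : ℝ)⁻¹ := by positivity
    rw [mul_add, h2]
    linarith
  · have hs : Real.sin (Real.pi * ((x : ℝ) / q)) = Real.sin (Real.pi * (((q - x : ℕ) : ℝ) / q)) := by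
      rw [← Real.sin_pi_sub]
      congr 1
      rw [hqx]
      field_simp
    have h' : ((q - x : ℕ) : ℝ) / q ≤ 1 / 2 := by
      rw [hqx, sub_div, div_self hq0.ne']
      linarith
    have h1 := key _ (by positivity) h'
    have h2 : (q : ℝ) / 2 * ((q - x : ℕ) : ℝ)⁻¹ = 2 / (2 * (2 * (((q - x : ℕ) : ℝ) / q))) := by
      field_simp
    have h3 : 2 / (2 * Real.sin (Real.pi * (((q - x : ℕ) : ℝ) / q))) ≤
        2 / (2 * (2 * (((q - x : ℕ) : ℝ) / q))) := by
      apply div_le_div_of_nonneg_left (by norm_num) (by positivity)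
      linarith
    have h4 : 0 ≤ (q : ℝ) / 2 * (x : ℝ)⁻¹ := by positivity
    rw [mul_add, h2, hs]
    linarith

/-- sums over `ZMod q` as sums over representatives -/
theorem pv_zmod {q : ℕ} [NeZero q] (f : ZMod q → ℝ) (h0 : f 0 = 0) :
    ∑ x : ZMod q, f x = ∑ x ∈ Icc 1 (q - 1), f (x : ZMod q) := by
  have hq : 0 < q := Nat.pos_of_neZero q
  have h1 : ∑ x : ZMod q, f x = ∑ x ∈ range q, f (x : ZMod q) := by
    refine Finset.sum_bij' (fun x _ => x.val) (fun n _ => (n : ZMod q)) ?_ ?_ ?_ ?_ ?_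
    · intro x _
      exact mem_range.2 (ZMod.val_lt x)
    · intro n _
      exact mem_univ _
    · intro x _
      exact ZMod.natCast_zmod_val x
    · intro n hn
      exact ZMod.val_cast_of_lt (mem_range.1 hn)
    · intro x _
      rw [ZMod.natCast_zmod_val]
  rw [h1, Finset.range_eq_Ico, Finset.sum_eq_sum_Ico_succ_bot hq]
  rw [Nat.cast_zero, h0, zero_add]
  refine sum_congr ?_ fun _ _ => rfl
  ext n
  rw [mem_Ico, mem_Icc]
  omega

/-- the Polya-Vinogradov inequality -/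
theorem pv {q : ℕ} [NeZero q] {χ : DirichletCharacter ℂ q} (hχ : χ.IsPrimitive) (h1 : χ ≠ 1) (N : ℕ) :
    ‖∑ n ∈ Icc 1 N, χ (n : ZMod q)‖ ≤ √q * (1 + Real.log q) := by
  classical
  have hq1 : q ≠ 1 := by
    rintro rfl
    exact h1 (Subsingleton.elim _ _)
  have hq : 1 < q := by
    have := Nat.pos_of_neZero q
    omega
  have hq0 : (0 : ℝ) < q := by exact_mod_cast (by omega : 0 < q)
  have hinv : (χ⁻¹).IsPrimitive := by
    rw [DirichletCharacter.isPrimitive_def, DirichletCharacter.conductor_inv]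
    exact hχ
  set τ := gaussSum χ⁻¹ (ZMod.stdAddChar (N := q)) with hτ
  have hτn : ‖τ‖ = √q := by
    rw [← norm_gaussSum_sq hinv, Real.sqrt_sq (norm_nonneg _)]
  have key : (∑ n ∈ Icc 1 N, χ (n : ZMod q)) * τ =
      ∑ x : ZMod q, χ⁻¹ x * ∑ n ∈ Icc 1 N, (ZMod.stdAddChar (N := q) x) ^ n := by
    rw [sum_mul]
    have h2 : ∀ n : ℕ, χ (n : ZMod q) * τ = ∑ x : ZMod q, χ⁻¹ x * (ZMod.stdAddChar (N := q) x) ^ n := by
      intro n
      have h3 := gaussSum_mulShift_of_isPrimitive (ZMod.stdAddChar (N := q)) hinv (n : ZMod q)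
      rw [inv_inv] at h3
      rw [← h3, gaussSum]
      refine sum_congr rfl fun x _ => ?_
      congr 1
      rw [AddChar.mulShift_apply, ← AddChar.map_nsmul_eq_pow, nsmul_eq_mul]
    rw [sum_congr rfl fun n _ => h2 n, sum_comm]
    refine sum_congr rfl fun x _ => ?_
    rw [mul_sum]
  have hstd : ∀ x : ℕ, ZMod.stdAddChar (N := q) (x : ZMod q) = ee ((x : ℝ) / q) := by
    intro x
    have h := ZMod.stdAddChar_coe (N := q) (x : ℤ)
    rw [Int.cast_natCast] at h
    rw [h]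
    unfold ee
    congr 1
    push_cast
    ring
  have hb : ‖(∑ n ∈ Icc 1 N, χ (n : ZMod q)) * τ‖ ≤ q * (1 + Real.log q) := by
    rw [key]
    refine (norm_sum_le _ _).trans ?_
    have hz : ‖χ⁻¹ (0 : ZMod q) * ∑ n ∈ Icc 1 N, (ZMod.stdAddChar (N := q) (0 : ZMod q)) ^ n‖ = 0 := by
      have : χ⁻¹ (0 : ZMod q) = 0 := by
        apply MulChar.map_nonunit
        have : Fact (1 < q) := ⟨hq⟩
        exact not_isUnit_zero
      rw [this, zero_mul, norm_zero]
    rw [pv_zmod (fun x => ‖χ⁻¹ x * ∑ n ∈ Icc 1 N, (ZMod.stdAddChar (N := q) x) ^ n‖) hz]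
    have h4 : ∀ x ∈ Icc 1 (q - 1), ‖χ⁻¹ (x : ZMod q) * ∑ n ∈ Icc 1 N,
        (ZMod.stdAddChar (N := q) (x : ZMod q)) ^ n‖ ≤
        (q : ℝ) / 2 * ((x : ℝ)⁻¹ + ((q - x : ℕ) : ℝ)⁻¹) := by
      intro x hx
      rw [mem_Icc] at hx
      rw [norm_mul]
      have h5 := χ⁻¹.norm_le_one (x : ZMod q)
      have h6 : ZMod.stdAddChar (N := q) (x : ZMod q) ≠ 1 := by
        intro h
        have h7 : (x : ZMod q) = 0 := by
          apply ZMod.injective_stdAddChar
          rw [h, AddChar.map_zero_eq_one]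
        rw [ZMod.natCast_eq_zero_iff] at h7
        have := Nat.le_of_dvd (by omega) h7
        omega
      have h7 : ‖ZMod.stdAddChar (N := q) (x : ZMod q)‖ = 1 := by
        rw [hstd]
        unfold ee
        have : (2 * Real.pi * ((x : ℝ) / q : ℝ) * Complex.I : ℂ) =
            ((2 * Real.pi * ((x : ℝ) / q) : ℝ) : ℂ) * Complex.I := by
          push_cast; ring
        rw [this, Complex.norm_exp_ofReal_mul_I]
      have h8 := pv_geom h7 h6 N
      rw [hstd] at h8 ⊢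
      have h9 := pv_ee (q := q) (x := x) hx.1 (by omega)
      calc _ ≤ 1 * (2 / ‖ee ((x : ℝ) / q) - 1‖) :=
            mul_le_mul h5 h8 (norm_nonneg _) zero_le_one
        _ ≤ _ := by rw [one_mul]; exact h9
    refine (sum_le_sum h4).trans ?_
    rw [← mul_sum, sum_add_distrib]
    have h10 : ∑ x ∈ Icc 1 (q - 1), ((q - x : ℕ) : ℝ)⁻¹ = ∑ x ∈ Icc 1 (q - 1), (x : ℝ)⁻¹ := by
      refine Finset.sum_bij' (fun x _ => q - x) (fun x _ => q - x) ?_ ?_ ?_ ?_ ?_ <;>
        intro x hx <;> rw [mem_Icc] at hx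
      · rw [mem_Icc]; omega
      · rw [mem_Icc]; omega
      · omega
      · omega
    rw [h10]
    have h11 := sum_inv_le (q - 1)
    have h12 : Real.log ((q - 1 : ℕ) : ℝ) ≤ Real.log q := by
      apply Real.log_le_log
      · exact_mod_cast (by omega : 0 < q - 1)
      · exact_mod_cast Nat.sub_le q 1
    nlinarith
  rw [norm_mul, hτn] at hb
  have hs : 0 < √(q : ℝ) := Real.sqrt_pos.2 hq0
  have hqs : (q : ℝ) = √q * √q := (Real.mul_self_sqrt hq0.le).symm
  have h13 : ‖∑ n ∈ Icc 1 N, χ (n : ZMod q)‖ * √q ≤ (√q * (1 + Real.log q)) * √q := by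
    calc _ ≤ q * (1 + Real.log q) := hb
      _ = _ := by
        generalize Real.log q = l
        rw [mul_right_comm, ← hqs]
  exact le_of_mul_le_mul_right h13 hs

/-- the Moebius function detects coprimality -/
theorem pv_mob {n m : ℕ} (hn : 1 ≤ n) (hm : 1 ≤ m) :
    ∑ e ∈ m.divisors.filter (· ∣ n), (ArithmeticFunction.moebius e : ℤ) = if n.Coprime m then 1 else 0 := by
  have h1 : m.divisors.filter (· ∣ n) = (Nat.gcd n m).divisors := by
    ext e
    simp only [mem_filter, Nat.mem_divisors]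
    constructor
    · rintro ⟨⟨h2, h3⟩, h4⟩
      exact ⟨Nat.dvd_gcd h4 h2, (Nat.gcd_pos_of_pos_left m hn).ne'⟩
    · rintro ⟨h2, -⟩
      exact ⟨⟨h2.trans (Nat.gcd_dvd_right n m), by omega⟩, h2.trans (Nat.gcd_dvd_left n m)⟩
  rw [h1, ← ArithmeticFunction.coe_mul_zeta_apply, ArithmeticFunction.moebius_mul_coe_zeta,
    ArithmeticFunction.one_apply]

/-- the Polya-Vinogradov inequality with a coprimality condition -/
theorem pv_cop {q : ℕ} [NeZero q] {χ : DirichletCharacter ℂ q} {B : ℝ}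
    (hB : ∀ N : ℕ, ‖∑ n ∈ Icc 1 N, χ (n : ZMod q)‖ ≤ B) {m : ℕ} (hm : 1 ≤ m) (N : ℕ) :
    ‖∑ n ∈ Icc 1 N, (if n.Coprime m then χ (n : ZMod q) else 0)‖ ≤ (m.divisors.card : ℝ) * B := by
  classical
  have h1 : ∑ n ∈ Icc 1 N, (if n.Coprime m then χ (n : ZMod q) else 0) =
      ∑ e ∈ m.divisors, ((ArithmeticFunction.moebius e : ℤ) : ℂ) *
        (χ (e : ZMod q) * ∑ k ∈ Icc 1 (N / e), χ (k : ZMod q)) := by
    have h2 : ∀ n ∈ Icc 1 N, (if n.Coprime m then χ (n : ZMod q) else 0) =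
        ∑ e ∈ m.divisors, (if e ∣ n then ((ArithmeticFunction.moebius e : ℤ) : ℂ) * χ (n : ZMod q) else 0) := by
      intro n hn
      rw [mem_Icc] at hn
      rw [← sum_filter, ← sum_mul]
      have h3 := pv_mob hn.1 hm
      have h4 : ∑ e ∈ m.divisors.filter (· ∣ n), ((ArithmeticFunction.moebius e : ℤ) : ℂ) =
          if n.Coprime m then 1 else 0 := by
        have := congrArg (Int.cast : ℤ → ℂ) h3
        push_cast at this
        rw [this]
      rw [h4]
      split_ifs <;> simp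
    rw [sum_congr rfl h2, sum_comm]
    refine sum_congr rfl fun e he => ?_
    have he1 : 0 < e := Nat.pos_of_mem_divisors he
    rw [← sum_filter, ← mul_sum]
    congr 1
    rw [mul_sum]
    refine Finset.sum_bij' (fun n _ => n / e) (fun k _ => e * k) ?_ ?_ ?_ ?_ ?_
    · intro n hn
      rw [mem_filter, mem_Icc] at hn
      rw [mem_Icc]
      obtain ⟨⟨h3, h4⟩, h5⟩ := hn
      exact ⟨Nat.div_pos (Nat.le_of_dvd (by omega) h5) he1, Nat.div_le_div_right h4⟩
    · intro k hk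
      rw [mem_Icc] at hk
      rw [mem_filter, mem_Icc]
      refine ⟨⟨Nat.mul_pos he1 hk.1, ?_⟩, dvd_mul_right e k⟩
      rw [mul_comm]
      exact (Nat.le_div_iff_mul_le he1).1 hk.2
    · intro n hn
      rw [mem_filter] at hn
      exact Nat.mul_div_cancel' hn.2
    · intro k hk
      exact Nat.mul_div_cancel_left k he1
    · intro n hn
      rw [mem_filter] at hn
      conv_lhs => rw [← Nat.mul_div_cancel' hn.2]
      push_cast
      rw [map_mul]
  rw [h1]
  refine (norm_sum_le _ _).trans ?_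
  rw [← nsmul_eq_mul]
  refine Finset.sum_le_card_nsmul _ _ _ fun e he => ?_
  rw [norm_mul, norm_mul]
  have h3 : ‖((ArithmeticFunction.moebius e : ℤ) : ℂ)‖ ≤ 1 := by
    rw [Complex.norm_intCast]
    exact_mod_cast ArithmeticFunction.abs_moebius_le_one
  have h4 := χ.norm_le_one (e : ZMod q)
  have h5 := hB (N / e)
  have h6 : 0 ≤ B := (norm_nonneg _).trans h5
  calc ‖((ArithmeticFunction.moebius e : ℤ) : ℂ)‖ * (‖χ (e : ZMod q)‖ * ‖∑ k ∈ Icc 1 (N / e), χ (k : ZMod q)‖)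
      ≤ 1 * (1 * B) := by
        refine mul_le_mul h3 (mul_le_mul h4 h5 (norm_nonneg _) zero_le_one) (by positivity) zero_le_one
    _ = B := by ring

/-- with the weight `α + β log n` -/
theorem pv_log {a : ℕ → ℂ} {B : ℝ} (hB : ∀ N : ℕ, ‖∑ n ∈ Icc 1 N, a n‖ ≤ B) (α β : ℂ) {K N : ℕ}
    (hK : K ≤ N) : ‖∑ n ∈ Icc 1 K, a n * (α + β * Real.log n)‖ ≤ B * (‖α‖ + 2 * ‖β‖ * Real.log N) := by
  have hB0 : 0 ≤ B := (norm_nonneg _).trans (hB 0)
  have hN0 : 0 ≤ Real.log N := Real.log_natCast_nonneg N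
  rcases Nat.eq_zero_or_pos K with rfl | hK1
  · simp only [zero_lt_one, Finset.Icc_eq_empty_of_lt, Finset.sum_empty, norm_zero]
    positivity
  · have h1 := Pool.Agent.H17.norm_sum_mul_mono_le (a := a) (w := fun n : ℕ => Real.log n) (B := B) hB
      (fun n _ => Real.log_natCast_nonneg n)
      (fun n hn => by
        apply Real.log_le_log
        · exact_mod_cast hn
        · push_cast; linarith) K hK1
    have h2 : Real.log K ≤ Real.log N :=
      Real.log_le_log (by exact_mod_cast hK1) (by exact_mod_cast hK)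
    have h3 : ∑ n ∈ Icc 1 K, a n * (α + β * Real.log n) =
        α * ∑ n ∈ Icc 1 K, a n + β * ∑ n ∈ Icc 1 K, a n * ((Real.log n : ℝ) : ℂ) := by
      rw [mul_sum, mul_sum, ← sum_add_distrib]
      refine sum_congr rfl fun n _ => ?_
      ring
    rw [h3]
    refine (norm_add_le _ _).trans ?_
    rw [norm_mul, norm_mul]
    have h4 : ‖∑ n ∈ Icc 1 K, a n * ((Real.log n : ℝ) : ℂ)‖ ≤ 2 * B * Real.log N :=
      h1.trans (mul_le_mul_of_nonneg_left h2 (by positivity))
    calc ‖α‖ * ‖∑ n ∈ Icc 1 K, a n‖ + ‖β‖ * ‖∑ n ∈ Icc 1 K, a n * ((Real.log n : ℝ) : ℂ)‖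
        ≤ ‖α‖ * B + ‖β‖ * (2 * B * Real.log N) :=
          add_le_add (mul_le_mul_of_nonneg_left (hB K) (norm_nonneg _))
            (mul_le_mul_of_nonneg_left h4 (norm_nonneg _))
      _ = _ := by ring

end SZ17
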